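import Pool.Agent.W857.CC.Stm

set_option autoImplicit false

namespace Pool.Agent.W32.CC.NB34

open Finset Pool.Agent.W857.CC
open scoped Classical

lemma nsum_le {V : Type} [Fintype V] (G : SimpleGraph V) (A B : Finset V)
    (hA : ∀ a ∈ A, ∀ a' ∈ A, ¬ G.Adj a a') (x : V → ℝ) (hx : ∀ v, 0 ≤ x v) (v : V) (hv : v ∈ A) :
    nsum (restr G (A ∪ B)) x v ≤ ∑ w ∈ B, x w := by
  unfold nsum
  rw [← Finset.sum_filter]
  refine Finset.sum_le_sum_of_subset_of_nonneg ?_ (fun w _ _ => hx w)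
  intro w hw
  rw [Finset.mem_filter] at hw
  obtain ⟨-, h1, -, h3⟩ := hw
  rcases Finset.mem_union.1 h3 with h | h
  · exact absurd h1 (hA v hv w h)
  · exact h

theorem nb3 (hP : S_PERRON) : S_NB3 := by
  intro V _ _ G A B hAB hA hB
  obtain ⟨x, hx, ⟨v0, hv0⟩, hev⟩ := hP V (restr G (A ∪ B))
  obtain ⟨L, hL⟩ : ∃ L : ℝ, L = lam (restr G (A ∪ B)) := ⟨_, rfl⟩
  rw [← hL] at hev ⊢
  rcases le_or_gt L 0 with h0 | h0
  · exact h0.trans (Real.sqrt_nonneg _)
  · have h1 : ∀ v ∈ A, L * x v ≤ ∑ w ∈ B, x w := fun v hv => by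
      rw [← hev]; exact nsum_le G A B hA x hx v hv
    have h2 : ∀ v ∈ B, L * x v ≤ ∑ w ∈ A, x w := fun v hv => by
      rw [← hev, Finset.union_comm]; exact nsum_le G B A hB x hx v hv
    have h3 : L * ∑ w ∈ A, x w ≤ #A * ∑ w ∈ B, x w := by
      rw [Finset.mul_sum, ← nsmul_eq_mul]
      exact Finset.sum_le_card_nsmul _ _ _ h1
    have h4 : L * ∑ w ∈ B, x w ≤ #B * ∑ w ∈ A, x w := by
      rw [Finset.mul_sum, ← nsmul_eq_mul]
      exact Finset.sum_le_card_nsmul _ _ _ h2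
    obtain ⟨sA, hsA⟩ : ∃ s : ℝ, s = ∑ w ∈ A, x w := ⟨_, rfl⟩
    obtain ⟨sB, hsB⟩ : ∃ s : ℝ, s = ∑ w ∈ B, x w := ⟨_, rfl⟩
    have hA0 : 0 ≤ sA := by rw [hsA]; exact Finset.sum_nonneg fun v _ => hx v
    have hB0 : 0 ≤ sB := by rw [hsB]; exact Finset.sum_nonneg fun v _ => hx v
    have hv : v0 ∈ A ∪ B := by
      by_contra hcon
      have h5 : nsum (restr G (A ∪ B)) x v0 = 0 := by
        unfold nsum
        refine Finset.sum_eq_zero fun w _ => ?_
        rw [if_neg]
        rintro ⟨-, h, -⟩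
        exact hcon h
      rw [hev] at h5
      have := mul_pos h0 hv0
      linarith
    have hpos : 0 < sA + sB := by
      rcases Finset.mem_union.1 hv with h | h
      · have := Finset.single_le_sum (f := x) (fun i _ => hx i) h
        rw [← hsA] at this
        linarith
      · have := Finset.single_le_sum (f := x) (fun i _ => hx i) h
        rw [← hsB] at this
        linarith
    rw [← hsA, ← hsB] at h3 h4
    have hA1 : 0 < sA := by
      rcases hA0.eq_or_lt with h | h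
      · rw [← h] at h4 hpos
        have : 0 < L * sB := mul_pos h0 (by linarith)
        linarith
      · exact h
    have hB1 : 0 < sB := by
      rcases hB0.eq_or_lt with h | h
      · rw [← h] at h3 hpos
        have : 0 < L * sA := mul_pos h0 (by linarith)
        linarith
      · exact h
    have h6 : L ^ 2 ≤ #A * #B := by
      have h7 : (L * sA) * (L * sB) ≤ (#A * sB) * (#B * sA) :=
        mul_le_mul h3 h4 (by positivity) (by positivity)
      have h8 : 0 < sA * sB := mul_pos hA1 hB1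
      refine le_of_mul_le_mul_right ?_ h8
      linarith
    have h9 : #A * #B ≤ #(A ∪ B) ^ 2 / 4 := by
      rw [Finset.card_union_of_disjoint hAB, Nat.le_div_iff_mul_le (by norm_num)]
      zify
      nlinarith [sq_nonneg ((#A : ℤ) - #B)]
    rw [Real.le_sqrt' h0]
    refine h6.trans ?_
    exact_mod_cast h9

lemma eb_sum {V : Type} (G : SimpleGraph V) (P Q : Finset V) : eb G P Q = ∑ v ∈ P, nb G v Q := by
  unfold eb nb
  rw [Finset.card_filter, Finset.sum_product]
  refine Finset.sum_congr rfl fun v _ => ?_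
  rw [Finset.card_filter]

lemma eb_comm {V : Type} (G : SimpleGraph V) (P Q : Finset V) : eb G P Q = eb G Q P := by
  rw [eb_sum, eb_sum]
  unfold nb
  simp only [Finset.card_filter]
  rw [Finset.sum_comm]
  simp only [G.adj_comm]

lemma nb_le {V : Type} (G : SimpleGraph V) (v : V) (P : Finset V) : nb G v P ≤ #P :=
  Finset.card_filter_le _ _

lemma nb_mono {V : Type} (G : SimpleGraph V) (v : V) {P Q : Finset V} (h : P ⊆ Q) :
    nb G v P ≤ nb G v Q := Finset.card_le_card (Finset.filter_subset_filter _ h)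

lemma half (n : ℕ) (G : SimpleGraph (Fin n)) (P Q : Finset (Fin n)) (hn : 1 ≤ n)
    (hPQ : (#P : ℝ) + #Q = n) (he : (1 / 4 - 1 / 10 ^ 8) * (n : ℝ) ^ 2 ≤ eb G P Q) :
    (#(P.filter fun v => ¬ 2 / 5 * (n : ℝ) ≤ nb G v univ) : ℝ) ≤ 1 / (2 * 10 ^ 6) * n := by
  have hn0 : (1 : ℝ) ≤ n := by exact_mod_cast hn
  obtain ⟨p, hp⟩ : ∃ p : ℝ, p = #P := ⟨_, rfl⟩
  obtain ⟨q, hq⟩ : ∃ q : ℝ, q = #Q := ⟨_, rfl⟩
  obtain ⟨bd, hbd⟩ : ∃ b : ℝ, b = #(P.filter fun v => ¬ 2 / 5 * (n : ℝ) ≤ nb G v univ) := ⟨_, rfl⟩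
  rw [← hp, ← hq] at hPQ
  have h1 : (eb G P Q : ℝ) ≤ p * q - bd * (q - 2 / 5 * n) := by
    rw [eb_sum]
    push_cast
    rw [← Finset.sum_filter_add_sum_filter_not P (fun v => 2 / 5 * (n : ℝ) ≤ nb G v univ)]
    have h2 : ∑ v ∈ P.filter (fun v => 2 / 5 * (n : ℝ) ≤ nb G v univ), (nb G v Q : ℝ) ≤
        (p - bd) * q := by
      have h3 : p - bd = #(P.filter fun v => 2 / 5 * (n : ℝ) ≤ nb G v univ) := by
        rw [hp, hbd, ← Finset.card_filter_add_card_filter_not (s := P)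
          (fun v => 2 / 5 * (n : ℝ) ≤ nb G v univ)]
        push_cast
        ring
      rw [h3, ← nsmul_eq_mul]
      refine Finset.sum_le_card_nsmul _ _ _ fun v _ => ?_
      rw [hq]
      exact_mod_cast nb_le G v Q
    have h4 : ∑ v ∈ P.filter (fun v => ¬ 2 / 5 * (n : ℝ) ≤ nb G v univ), (nb G v Q : ℝ) ≤
        bd * (2 / 5 * n) := by
      rw [hbd, ← nsmul_eq_mul]
      refine Finset.sum_le_card_nsmul _ _ _ fun v hv => ?_
      rw [Finset.mem_filter] at hv
      have h5 := hv.2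
      push Not at h5
      have h6 : (nb G v Q : ℝ) ≤ nb G v univ := by exact_mod_cast nb_mono G v (subset_univ _)
      linarith
    linarith
  have hb0 : 0 ≤ bd := by rw [hbd]; positivity
  have hp0 : 0 ≤ p := by rw [hp]; positivity
  have hq0 : 0 ≤ q := by rw [hq]; positivity
  have h0 : (eb G P Q : ℝ) ≤ p * q := by
    rw [eb_sum, hp, hq]
    push_cast
    rw [← nsmul_eq_mul]
    refine Finset.sum_le_card_nsmul _ _ _ fun v _ => ?_
    exact_mod_cast nb_le G v Q
  have h7 : (q - n / 2) ^ 2 ≤ (n / 10 ^ 4) ^ 2 := by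
    have : p = n - q := by linarith
    rw [this] at h0
    nlinarith
  have h8 := abs_le.1 (abs_le_of_sq_le_sq h7 (by positivity))
  have h9 : p * q ≤ (n : ℝ) ^ 2 / 4 := by nlinarith [sq_nonneg (p - q)]
  have h10 : bd * (q - 2 / 5 * n) ≤ 1 / 10 ^ 8 * (n : ℝ) ^ 2 := by nlinarith
  have h11 : bd * (9 / 100 * n) ≤ bd * (q - 2 / 5 * n) := by
    refine mul_le_mul_of_nonneg_left ?_ hb0
    linarith
  rw [← hbd]
  have h12 : bd * (9 / 100) ≤ 1 / 10 ^ 8 * n := by
    have hnp : (0 : ℝ) < n := by linarith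
    refine le_of_mul_le_mul_right ?_ hnp
    nlinarith
  linarith

theorem nb4 : S_NB4 := by
  intro n G A hn he
  have hc : (#A : ℝ) + #Aᶜ = n := by
    have := Finset.card_add_card_compl A
    rw [Fintype.card_fin] at this
    exact_mod_cast this
  have h1 := half n G A Aᶜ hn hc he
  have h2 := half n G Aᶜ A hn (by linarith) (by rw [eb_comm]; exact he)
  have h3 : (#(univ.filter fun v => 2 / 5 * (n : ℝ) ≤ nb G v univ) : ℝ) +
      #(univ.filter fun v => ¬ 2 / 5 * (n : ℝ) ≤ nb G v univ) = n := by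
    have := Finset.card_filter_add_card_filter_not (s := (univ : Finset (Fin n)))
      (fun v => 2 / 5 * (n : ℝ) ≤ nb G v univ)
    rw [Finset.card_univ, Fintype.card_fin] at this
    exact_mod_cast this
  have h4 : (#(univ.filter fun v => ¬ 2 / 5 * (n : ℝ) ≤ nb G v univ) : ℝ) ≤
      #(A.filter fun v => ¬ 2 / 5 * (n : ℝ) ≤ nb G v univ) +
      #(Aᶜ.filter fun v => ¬ 2 / 5 * (n : ℝ) ≤ nb G v univ) := by
    have h5 : (univ.filter fun v => ¬ 2 / 5 * (n : ℝ) ≤ nb G v univ) ⊆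
        (A.filter fun v => ¬ 2 / 5 * (n : ℝ) ≤ nb G v univ) ∪
        (Aᶜ.filter fun v => ¬ 2 / 5 * (n : ℝ) ≤ nb G v univ) := by
      intro v hv
      rw [Finset.mem_filter] at hv
      rw [Finset.mem_union, Finset.mem_filter, Finset.mem_filter, Finset.mem_compl]
      by_cases h : v ∈ A
      · exact Or.inl ⟨h, hv.2⟩
      · exact Or.inr ⟨h, hv.2⟩
    have h6 := (Finset.card_le_card h5).trans (Finset.card_union_le _ _)
    exact_mod_cast h6
  linarith

end Pool.Agent.W32.CC.NB34
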